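import Pool.Agent.MP_26cd3b_lc.H27.CellDefs

set_option autoImplicit false

namespace Pool.Agent.MP_26cd3b_lc.H50

open Submodule Pool.Agent.MP_26cd3b_lc.H27

variable {E : Type} [AddCommGroup E] [Module ℝ E] [FiniteDimensional ℝ E]

section Abstract

variable {ι : Type} {s W : Finset ι} {y : ι → E} {nx pv : ι → ι}

theorem fn_zero (hv : Vx s y) (hsp : span ℝ (y '' s) = ⊤) {c : ι} (hc : c ∈ s)
    (hn : ∀ x, Ed s y c x → x ∈ W ∨ x = nx c ∨ x = pv c) :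
    ⊤ ≤ span ℝ (Set.range (Sum.elim ![y c, y (nx c), y (pv c)] fun w : W => y w)) := by
  rw [← hsp, span_le]
  rintro _ ⟨b, hb, rfl⟩
  refine (hv.tangent hc b hb).mem_sup (span_mono ?_) ?_
  · rintro _ rfl
    exact ⟨Sum.inl 0, rfl⟩
  · rintro _ ⟨x, hx, rfl⟩
    rcases hn x hx with h | rfl | rfl
    · exact subset_span ⟨Sum.inr ⟨x, h⟩, rfl⟩
    · exact subset_span ⟨Sum.inl 1, rfl⟩
    · exact subset_span ⟨Sum.inl 2, rfl⟩

theorem fn_ext (hv : Vx s y) (hsp : span ℝ (y '' s) = ⊤) {c : ι} (hc : c ∈ s)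
    (hn : ∀ x, Ed s y c x → x ∈ W ∨ x = nx c ∨ x = pv c) {φ : E →ₗ[ℝ] ℝ}
    (h0 : ∀ w ∈ W, φ (y w) = 0) (h1 : φ (y c) = 0) (h2 : φ (y (nx c)) = 0)
    (h3 : φ (y (pv c)) = 0) (v : E) : φ v = 0 := by
  refine span_zero ?_ v (fn_zero hv hsp hc hn trivial)
  rintro _ ⟨i | w, rfl⟩
  · fin_cases i
    · exact h1
    · exact h2
    · exact h3
  · exact h0 w w.2

theorem fn_exists (hv : Vx s y) (hsp : span ℝ (y '' s) = ⊤)
    (hr : Module.finrank ℝ E = W.card + 3) {c : ι} (hc : c ∈ s)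
    (hn : ∀ x, Ed s y c x → x ∈ W ∨ x = nx c ∨ x = pv c) (p q r : ℝ) :
    ∃ φ : E →ₗ[ℝ] ℝ, (∀ w ∈ W, φ (y w) = 0) ∧ φ (y c) = p ∧ φ (y (nx c)) = q ∧
      φ (y (pv c)) = r := by
  let b := basisOfTopLeSpanOfCardEqFinrank _ (fn_zero hv hsp hc hn) (by simp [hr, add_comm])
  have hb : ∀ i, (b.constr ℝ (Sum.elim ![p, q, r] fun _ => 0))
      (Sum.elim ![y c, y (nx c), y (pv c)] (fun w : W => y w) i) =
      Sum.elim ![p, q, r] (fun _ => 0) i := by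
    intro i
    rw [← b.constr_basis ℝ (Sum.elim ![p, q, r] fun _ => 0) i]
    simp only [b, coe_basisOfTopLeSpanOfCardEqFinrank]
  exact ⟨_, fun w hw => hb (Sum.inr ⟨w, hw⟩), hb (Sum.inl 0), hb (Sum.inl 1), hb (Sum.inl 2)⟩

theorem fn_pos (hv : Vx s y) (hsp : span ℝ (y '' s) = ⊤)
    (hr : Module.finrank ℝ E = W.card + 3) (hW : ∀ w ∈ W, w ∈ s)
    (hn : ∀ c ∈ s, c ∉ W → ∀ x, Ed s y c x → x ∈ W ∨ x = nx c ∨ x = pv c)
    (hs : ∀ c ∈ s, c ∉ W → ∃ d ∈ s, d ∉ W ∧ nx d = c) {c : ι} (hc : c ∈ s) (hcW : c ∉ W) :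
    ∃ ψ : E →ₗ[ℝ] ℝ, (∀ w ∈ W, ψ (y w) = 0) ∧ ψ (y c) = 0 ∧
      ∀ d ∈ s, d ∉ W → d ≠ c → 0 < ψ (y d) := by
  obtain ⟨ψ, h0, h1, h2, h3⟩ := fn_exists hv hsp hr hc (hn c hc hcW) 0 1 1
  have hψ : ∀ x, Ed s y c x → 0 ≤ ψ (y x) := by
    intro x hx
    rcases hn c hc hcW x hx with h | rfl | rfl
    · exact (h0 x h).ge
    · rw [h2]; exact zero_le_one
    · rw [h3]; exact zero_le_one
  refine ⟨ψ, h0, h1, fun d hd hdW hdc => lt_of_le_of_ne (hv.valid hc h1 hψ d hd) fun e => ?_⟩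
  have k := (hv.tangent_face hc hd (hv.valid hc h1 hψ) h1 e.symm).mono (A' := y '' W) (by
    rintro _ ⟨x, ⟨hx, hx0⟩, rfl⟩
    rcases hn c hc hcW x hx with h | rfl | rfl
    · exact ⟨x, h, rfl⟩
    · rw [h2] at hx0; exact absurd hx0 one_ne_zero
    · rw [h3] at hx0; exact absurd hx0 one_ne_zero)
  obtain ⟨u, hu, w, hw, k1⟩ := k.split
  obtain ⟨t, rfl⟩ := mem_span_singleton.1 hu
  obtain ⟨d', hd', hd'W, rfl⟩ := hs d hd hdW
  obtain ⟨F, g0, g1, g2, g3⟩ := fn_exists hv hsp hr hd' (hn d' hd' hd'W) 0 1 0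
  have hF : Valid s y F := hv.valid hd' g1 (by
    intro x hx
    rcases hn d' hd' hd'W x hx with h | rfl | rfl
    · exact (g0 x h).ge
    · rw [g2]; exact zero_le_one
    · exact g3.ge)
  have m1 : F w = 0 := hw.mem_sup (W := LinearMap.ker F) bot_le (by
    rintro _ ⟨x, hx, rfl⟩
    exact g0 x hx)
  obtain ⟨θ, t1, t2, t3⟩ := hv.fn hd
  have m2 : 0 ≤ θ w := hw.nonneg (by simp) (by
    rintro _ ⟨x, hx, rfl⟩
    exact t1 x (hW x hx))
  rw [k1] at g2 t2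
  simp only [map_add, map_smul, smul_eq_mul, m1, add_zero] at g2 t2
  have m3 := hF c hc
  have m4 := t3 c hc hdc.symm
  have m5 : 0 < t := by
    by_contra h
    nlinarith [mul_nonneg (neg_nonneg.2 (not_lt.1 h)) m3]
  nlinarith [mul_pos m5 m4]

theorem abstract_sound (hv : Vx s y) (hsp : span ℝ (y '' s) = ⊤)
    (hr : Module.finrank ℝ E = W.card + 3) (hW : ∀ w ∈ W, w ∈ s)
    (hn : ∀ c ∈ s, c ∉ W → ∀ x, Ed s y c x → x ∈ W ∨ x = nx c ∨ x = pv c)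
    (hs : ∀ c ∈ s, c ∉ W → ∃ d ∈ s, d ∉ W ∧ nx d = c) {c : ι} (hc : c ∈ s) (hcW : c ∉ W) :
    ∃ X Z : E →ₗ[ℝ] ℝ, (∀ w ∈ W, X (y w) = 0 ∧ Z (y w) = 0) ∧ X (y c) = 0 ∧ Z (y c) = 0 ∧
      X (y (pv c)) = 0 ∧ Z (y (nx c)) = 0 ∧ ∀ a ∈ s, ∀ b ∈ s, a ∉ W → b ∉ W → a ≠ c → b ≠ c →
        a ≠ b → X (y a) * Z (y b) - X (y b) * Z (y a) ≠ 0 := by
  obtain ⟨T, t0, t1, t2, t3⟩ := fn_exists hv hsp hr hc (hn c hc hcW) 1 0 0
  obtain ⟨X, x0, x1, x2, x3⟩ := fn_exists hv hsp hr hc (hn c hc hcW) 0 1 0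
  obtain ⟨Z, z0, z1, z2, z3⟩ := fn_exists hv hsp hr hc (hn c hc hcW) 0 0 1
  refine ⟨X, Z, fun w hw => ⟨x0 w hw, z0 w hw⟩, x1, z1, x3, z2,
    fun a ha b hb haW hbW hac hbc hab hdet => ?_⟩
  have key : ∀ φ : E →ₗ[ℝ] ℝ, (∀ w ∈ W, φ (y w) = 0) → ∀ v, X v = 0 → Z v = 0 →
      φ v = φ (y c) * T v := by
    intro φ hφ v hX hZ
    have := fn_ext hv hsp hc (hn c hc hcW)
      (φ := φ - φ (y c) • T - φ (y (nx c)) • X - φ (y (pv c)) • Z)
      (fun w hw => by simp [hφ w hw, t0 w hw, x0 w hw, z0 w hw]) (by simp [t1, x1, z1])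
      (by simp [t2, x2, z2]) (by simp [t3, x3, z3]) v
    simpa [hX, hZ, sub_eq_zero] using this
  obtain ⟨ψa, a0, a1, a2⟩ := fn_pos hv hsp hr hW hn hs ha haW
  obtain ⟨ψb, b0, b1, b2⟩ := fn_pos hv hsp hr hW hn hs hb hbW
  obtain ⟨ψc, c0, c1, c2⟩ := fn_pos hv hsp hr hW hn hs hc hcW
  have ind : ∀ p q : ℝ, X (p • y a + q • y b) = 0 → Z (p • y a + q • y b) = 0 → p = 0 := by
    intro p q hX hZ
    have e1 := key ψa a0 _ hX hZ
    have e2 := key ψb b0 _ hX hZ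
    have e3 := key ψc c0 _ hX hZ
    generalize T (p • y a + q • y b) = μ at e1 e2 e3
    simp only [map_add, map_smul, smul_eq_mul, a1, b1, c1, mul_zero, zero_add, add_zero,
      zero_mul] at e1 e2 e3
    have p1 := a2 b hb hbW hab.symm
    have p2 := a2 c hc hcW hac.symm
    have p3 := b2 a ha haW hab
    have p4 := b2 c hc hcW hbc.symm
    have p5 := c2 a ha haW hac
    have p6 := c2 b hb hbW hbc
    have e4 : p * (ψb (y a) * ψa (y c) * ψc (y b) + ψb (y c) * ψc (y a) * ψa (y b)) = 0 := by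
      linear_combination (ψa (y c) * ψc (y b)) * e2 - (ψb (y c) * ψc (y b)) * e1 +
        (ψb (y c) * ψa (y b)) * e3
    exact (mul_eq_zero.1 e4).resolve_right (by positivity)
  have h1 : Z (y b) = 0 := ind (Z (y b)) (-Z (y a))
    (by simp only [map_add, map_smul, smul_eq_mul]; linarith)
    (by simp only [map_add, map_smul, smul_eq_mul]; ring)
  have h2 : X (y b) = 0 := ind (X (y b)) (-X (y a))
    (by simp only [map_add, map_smul, smul_eq_mul]; ring)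
    (by simp only [map_add, map_smul, smul_eq_mul]; linarith)
  have e1 := key ψc c0 _ h2 h1
  rw [c1, zero_mul] at e1
  exact (c2 b hb hbW hbc).ne' e1

end Abstract

theorem order_sound {n : ℕ} {s A : Finset Lb} {y : Lb → E}
    (hs : ∀ x, x ∈ s ↔ x ∈ lab0 (n + 2) ∨ x ∈ A)
    (hA : ∀ x ∈ A, x.1 = 1) (hv : Vx s y) (hsp : span ℝ (y '' s) = ⊤)
    (hr : Module.finrank ℝ E = A.card + 5)
    (h0 : ∀ a ∈ lab0 (n + 2), ∀ b ∈ lab0 (n + 2), Ed s y a b →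
      adj0 (n + 2) (fun j i => j ≠ 2 ∨ i = 0 ∨ i = n + 1) (fun _ _ => False) a b) :
    ∃ X Z : E →ₗ[ℝ] ℝ, (∀ a ∈ s, a.1 ≠ 2 → X (y a) = 0 ∧ Z (y a) = 0) ∧
      X (y (2, n + 1)) = 0 ∧ Z (y (2, 0)) = 0 ∧ ∀ i ≤ n + 1, ∀ j ≤ n + 1, i ≠ j →
        X (y (2, i)) * Z (y (2, j)) - X (y (2, j)) * Z (y (2, i)) ≠ 0 := by
  classical
  set W : Finset Lb := insert (0, 0) (insert (0, 1) A) with hW
  have mW : ∀ x, x ∈ W ↔ x = (0, 0) ∨ x = (0, 1) ∨ x ∈ A := by simp [hW]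
  have n0 : ∀ j, ((0, j) : Lb) ∉ A := fun j h => by simpa using hA _ h
  have n2 : ∀ j, ((2, j) : Lb) ∉ A := fun j h => by simpa using hA _ h
  have cyc : ∀ c ∈ s, c ∉ W → c = (0, 2) ∨ ∃ i, i < n + 2 ∧ c = (2, i) := by
    rintro ⟨p, q⟩ hc hcW
    rw [mW] at hcW
    push Not at hcW
    rcases (hs _).1 hc with h | h
    · rcases mem_lab0.1 h with ⟨h1, h2⟩ | ⟨h1, h2⟩
      · simp only at h1 h2
        subst h1
        left
        obtain ⟨g1, g2, -⟩ := hcW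
        simp only [ne_eq, Prod.mk.injEq, true_and] at g1 g2 ⊢
        omega
      · simp only at h1 h2
        subst h1
        exact Or.inr ⟨q, h2, rfl⟩
    · exact absurd h hcW.2.2
  have s0 : ∀ j < 3, ((0, j) : Lb) ∈ s := fun j h => (hs _).2 (Or.inl (mem_lab0.2 (Or.inl ⟨rfl, h⟩)))
  have s2 : ∀ i < n + 2, ((2, i) : Lb) ∈ s := fun i h =>
    (hs _).2 (Or.inl (mem_lab0.2 (Or.inr ⟨rfl, h⟩)))
  have w0 : ((0, 2) : Lb) ∉ W := by simp [mW, n0]
  have w2 : ∀ i, ((2, i) : Lb) ∉ W := fun i => by simp [mW, n2]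
  obtain ⟨X, Z, k0, k1, k2, k3, k4, k5⟩ := abstract_sound (W := W)
    (nx := fun a => if a.1 = 0 then (2, 0) else if a.2 = n + 1 then (0, 2) else (2, a.2 + 1))
    (pv := fun a => if a.1 = 0 then (2, n + 1) else if a.2 = 0 then (0, 2) else (2, a.2 - 1))
    hv hsp (by
      rw [hr, hW, Finset.card_insert_of_notMem (by simp [n0]),
        Finset.card_insert_of_notMem (n0 1)]) (by
      intro w hw
      rcases (mW w).1 hw with rfl | rfl | h
      · exact s0 0 (by omega)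
      · exact s0 1 (by omega)
      · exact (hs _).2 (Or.inr h)) (by
      intro c hc hcW x hx
      by_cases hxW : x ∈ W
      · exact Or.inl hxW
      right
      have l1 : ∀ z ∈ s, z ∉ W → z ∈ lab0 (n + 2) := fun z hz hzW =>
        ((hs z).1 hz).resolve_right fun h => hzW ((mW z).2 (Or.inr (Or.inr h)))
      obtain ⟨-, -, g0, g1, g2, g3⟩ := h0 c (l1 c hc hcW) x (l1 x hx.2.1 hxW) hx
      rcases cyc c hc hcW with rfl | ⟨i, hi, rfl⟩ <;>
        rcases cyc x hx.2.1 hxW with rfl | ⟨j, hj, rfl⟩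
      · exact absurd rfl g0
      · simpa using g1
      · have : i = 0 ∨ i = n + 1 := by simpa using g2
        rcases this with rfl | rfl <;> simp
      · have : i + 1 = j ∨ j + 1 = i := by simpa using g3
        rcases this with rfl | rfl
        · left
          have : i ≠ n + 1 := by omega
          simp [this]
        · right
          simp) (by
      intro c hc hcW
      rcases cyc c hc hcW with rfl | ⟨i, hi, rfl⟩
      · exact ⟨(2, n + 1), s2 _ (by omega), w2 _, by simp⟩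
      · rcases i with _ | i
        · exact ⟨(0, 2), s0 2 (by omega), w0, by simp⟩
        · refine ⟨(2, i), s2 _ (by omega), w2 _, ?_⟩
          have : i ≠ n + 1 := by omega
          simp [this]) (s0 2 (by omega)) w0
  refine ⟨X, Z, fun a ha h => ?_, by simpa using k3, by simpa using k4, fun i hi j hj hij =>
    k5 _ (s2 i (by omega)) _ (s2 j (by omega)) (w2 i) (w2 j) (by simp) (by simp) (by simpa)⟩
  by_cases haW : a ∈ W
  · exact k0 a haW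
  · rcases cyc a ha haW with rfl | ⟨i, -, rfl⟩
    · exact ⟨k1, k2⟩
    · exact absurd rfl h

end Pool.Agent.MP_26cd3b_lc.H50
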